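import Mathlib

set_option autoImplicit false

/-!
# Piece B1 of project CY: products of cyclotomic polynomials and exponents of `1 - X ^ d`
-/

namespace Pool.Agent.W2helper2.CY

open Polynomial Finset ArithmeticFunction

/-- the exponents of one cyclotomic polynomial -/
noncomputable def ee (n d : ℕ) : ℤ := if d ∣ n then ArithmeticFunction.moebius (n / d) else 0

lemma ee_zero {n : ℕ} (hn : 0 < n) : ee n 0 = 0 := by
  unfold ee
  rw [if_neg]
  intro h
  rw [zero_dvd_iff] at h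
  omega

lemma ee_large {n d : ℕ} (hn : 0 < n) (h : n < d) : ee n d = 0 := by
  unfold ee
  rw [if_neg]
  intro h2
  have := Nat.le_of_dvd hn h2
  omega

lemma sum_ee {n n' c : ℕ} (hn : 0 < n) (hn' : 0 < n') (hc : n' < c) :
    ∑ k ∈ Icc 1 c, ee n' (k * n) = if n = n' then 1 else 0 := by
  by_cases h : n ∣ n'
  · obtain ⟨q, rfl⟩ := h
    have hq : 0 < q := Nat.pos_of_mul_pos_left hn' |> fun _ => by
      rcases Nat.eq_zero_or_pos q with h0 | h0
      · rw [h0, mul_zero] at hn'; omega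
      · exact h0
    have h1 : ∀ k ∈ Icc 1 c, ee (n * q) (k * n) = if k ∣ q then moebius (q / k) else 0 := by
      intro k hk
      have hk1 := (Finset.mem_Icc.1 hk).1
      unfold ee
      have e1 : (k * n ∣ n * q) ↔ k ∣ q := by
        rw [mul_comm k n]
        exact Nat.mul_dvd_mul_iff_left hn
      have e2 : n * q / (k * n) = q / k := by
        rw [mul_comm k n]
        exact Nat.mul_div_mul_left _ _ hn
      simp only [e1, e2]
    rw [Finset.sum_congr rfl h1, ← Finset.sum_filter]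
    have h2 : (Icc 1 c).filter (fun k => k ∣ q) = q.divisors := by
      ext k
      rw [Finset.mem_filter, Finset.mem_Icc, Nat.mem_divisors]
      constructor
      · rintro ⟨_, h⟩
        exact ⟨h, hq.ne'⟩
      · rintro ⟨h, _⟩
        refine ⟨⟨Nat.pos_of_dvd_of_pos h hq, ?_⟩, h⟩
        have h3 := Nat.le_of_dvd hq h
        have h4 : q ≤ n * q := Nat.le_mul_of_pos_left q hn
        omega
    rw [h2, Nat.sum_div_divisors q (fun k => (moebius k : ℤ)), ← coe_mul_zeta_apply,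
      moebius_mul_coe_zeta, one_apply]
    by_cases hq1 : q = 1
    · subst hq1
      simp
    · rw [if_neg hq1, if_neg]
      intro h
      apply hq1
      have h5 : n * 1 = n * q := by omega
      exact (Nat.eq_of_mul_eq_mul_left hn h5).symm
  · rw [if_neg (by rintro rfl; exact h dvd_rfl)]
    refine Finset.sum_eq_zero fun k _ => ?_
    unfold ee
    rw [if_neg]
    intro h2
    exact h ((Dvd.intro_left k rfl).trans h2)

/-- the exponents of a product -/
noncomputable def eT (T : Multiset ℕ) (d : ℕ) : ℤ := (T.map fun n => ee n d).sum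

lemma eT_zero (d : ℕ) : eT 0 d = 0 := by simp [eT]

lemma eT_cons (a : ℕ) (T : Multiset ℕ) (d : ℕ) : eT (a ::ₘ T) d = ee a d + eT T d := by
  simp [eT]

lemma eT_at_zero (T : Multiset ℕ) (hT : ∀ n ∈ T, 0 < n) : eT T 0 = 0 := by
  induction T using Multiset.induction_on with
  | empty => exact eT_zero 0
  | cons a T ih =>
    rw [eT_cons, ee_zero (hT a (Multiset.mem_cons_self a T)),
      ih fun n hn => hT n (Multiset.mem_cons_of_mem hn), add_zero]

lemma eT_large (T : Multiset ℕ) (c : ℕ) (hT : ∀ n ∈ T, 0 < n) (hb : ∀ n ∈ T, n < c) (d : ℕ)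
    (hd : c ≤ d) : eT T d = 0 := by
  induction T using Multiset.induction_on with
  | empty => exact eT_zero d
  | cons a T ih =>
    rw [eT_cons, ee_large (hT a (Multiset.mem_cons_self a T))
      (lt_of_lt_of_le (hb a (Multiset.mem_cons_self a T)) hd),
      ih (fun n hn => hT n (Multiset.mem_cons_of_mem hn))
        (fun n hn => hb n (Multiset.mem_cons_of_mem hn)), add_zero]

lemma eT_count (T : Multiset ℕ) (c : ℕ) (hT : ∀ n ∈ T, 0 < n) (hb : ∀ n ∈ T, n < c) (n : ℕ)
    (hn : 0 < n) : (T.count n : ℤ) = ∑ k ∈ Icc 1 c, eT T (k * n) := by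
  induction T using Multiset.induction_on with
  | empty => simp [eT_zero]
  | cons a T ih =>
    simp only [eT_cons, Finset.sum_add_distrib]
    rw [← ih (fun n hn => hT n (Multiset.mem_cons_of_mem hn))
      (fun n hn => hb n (Multiset.mem_cons_of_mem hn)),
      sum_ee hn (hT a (Multiset.mem_cons_self a T)) (hb a (Multiset.mem_cons_self a T)),
      Multiset.count_cons]
    push_cast
    ring

/-- the factors in the field of rational functions -/
noncomputable def aa (d : ℕ) : RatFunc ℤ := algebraMap ℤ[X] (RatFunc ℤ) (1 - X ^ d)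

lemma one_sub_ne {d : ℕ} (hd : 0 < d) : (1 - X ^ d : ℤ[X]) ≠ 0 := by
  intro h
  have h2 := congrArg (Polynomial.eval 0) h
  simp [hd.ne'] at h2

lemma aa_ne {d : ℕ} (hd : 0 < d) : aa d ≠ 0 := by
  unfold aa
  rw [Ne, map_eq_zero_iff _ (RatFunc.algebraMap_injective ℤ)]
  exact one_sub_ne hd

lemma cyc_aa {n c : ℕ} (hn : 0 < n) (hc : n < c) : ∃ ε : ℤ, (ε = 1 ∨ ε = -1) ∧
    algebraMap ℤ[X] (RatFunc ℤ) (cyclotomic n ℤ) = (ε : RatFunc ℤ) * ∏ d ∈ range c, aa d ^ ee n d := by
  have h1 := cyclotomic_eq_prod_X_pow_sub_one_pow_moebius (n := n) ℤ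
  rw [Nat.prod_divisorsAntidiagonal' (fun i j => algebraMap ℤ[X] (RatFunc ℤ) (X ^ j - 1) ^
    (moebius i : ℤ))] at h1
  have h2 : ∀ d ∈ n.divisors, algebraMap ℤ[X] (RatFunc ℤ) (X ^ d - 1) ^ (moebius (n / d) : ℤ) =
      ((-1 : RatFunc ℤ) ^ (moebius (n / d) : ℤ)) * aa d ^ ee n d := by
    intro d hd
    have h3 : (X ^ d - 1 : ℤ[X]) = (-1) * (1 - X ^ d) := by ring
    have h4 : ee n d = moebius (n / d) := by
      unfold ee
      rw [if_pos (Nat.dvd_of_mem_divisors hd)]
    rw [h3, map_mul, mul_zpow, h4, map_neg, map_one]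
    rfl
  rw [Finset.prod_congr rfl h2, Finset.prod_mul_distrib] at h1
  have h5 : ∏ d ∈ n.divisors, aa d ^ ee n d = ∏ d ∈ range c, aa d ^ ee n d := by
    refine Finset.prod_subset ?_ ?_
    · intro d hd
      rw [Finset.mem_range]
      exact lt_of_le_of_lt (Nat.divisor_le hd) hc
    · intro d _ hd
      have h6 : ee n d = 0 := by
        unfold ee
        rw [if_neg]
        intro h7
        exact hd (Nat.mem_divisors.2 ⟨h7, hn.ne'⟩)
      rw [h6, zpow_zero]
  rw [h5] at h1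
  have h8 : ∃ ε : ℤ, (ε = 1 ∨ ε = -1) ∧
      ∏ d ∈ n.divisors, ((-1 : RatFunc ℤ) ^ (moebius (n / d) : ℤ)) = (ε : RatFunc ℤ) := by
    generalize n.divisors = D
    induction D using Finset.induction_on with
    | empty => exact ⟨1, Or.inl rfl, by simp⟩
    | insert a D ha ih =>
      obtain ⟨ε, hε, h⟩ := ih
      rw [Finset.prod_insert ha, h]
      rcases Int.even_or_odd (moebius (n / a)) with h9 | h9
      · exact ⟨ε, hε, by rw [h9.neg_one_zpow, one_mul]⟩
      · refine ⟨-ε, ?_, by rw [h9.neg_one_zpow]; push_cast; ring⟩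
        rcases hε with rfl | rfl
        · right; rfl
        · left; rfl
  obtain ⟨ε, hε, h9⟩ := h8
  rw [h9] at h1
  exact ⟨ε, hε, h1⟩

lemma prod_aa (T : Multiset ℕ) (c : ℕ) (hT : ∀ n ∈ T, 0 < n) (hb : ∀ n ∈ T, n < c) :
    ∃ ε : ℤ, (ε = 1 ∨ ε = -1) ∧
      algebraMap ℤ[X] (RatFunc ℤ) (T.map fun n => cyclotomic n ℤ).prod =
        (ε : RatFunc ℤ) * ∏ d ∈ range c, aa d ^ eT T d := by
  induction T using Multiset.induction_on with
  | empty => exact ⟨1, Or.inl rfl, by simp [eT_zero]⟩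
  | cons a T ih =>
    obtain ⟨ε, hε, h⟩ := ih (fun n hn => hT n (Multiset.mem_cons_of_mem hn))
      (fun n hn => hb n (Multiset.mem_cons_of_mem hn))
    obtain ⟨ε', hε', h'⟩ := cyc_aa (hT a (Multiset.mem_cons_self a T))
      (hb a (Multiset.mem_cons_self a T))
    refine ⟨ε' * ε, ?_, ?_⟩
    · rcases hε with rfl | rfl <;> rcases hε' with rfl | rfl <;> simp
    · rw [Multiset.map_cons, Multiset.prod_cons, map_mul, h, h']
      have h1 : ∏ d ∈ range c, aa d ^ eT (a ::ₘ T) d =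
          (∏ d ∈ range c, aa d ^ ee a d) * ∏ d ∈ range c, aa d ^ eT T d := by
        rw [← Finset.prod_mul_distrib]
        refine Finset.prod_congr rfl fun d _ => ?_
        rcases Nat.eq_zero_or_pos d with rfl | hd
        · rw [eT_at_zero _ hT, ee_zero (hT a (Multiset.mem_cons_self a T)),
            eT_at_zero T fun n hn => hT n (Multiset.mem_cons_of_mem hn)]
          simp
        · rw [eT_cons, zpow_add₀ (aa_ne hd)]
      rw [h1]
      push_cast
      ring

lemma pow_facts {d m : ℕ} (h : d = 0 → m = 0) :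
    ((1 - X ^ d : ℤ[X]) ^ m) ≠ 0 ∧ ((1 - X ^ d : ℤ[X]) ^ m).natDegree = d * m ∧
      ((1 - X ^ d : ℤ[X]) ^ m).eval 0 = 1 := by
  rcases Nat.eq_zero_or_pos d with rfl | hd
  · rw [h rfl]
    simp
  · refine ⟨pow_ne_zero _ (one_sub_ne hd), ?_, ?_⟩
    · rw [natDegree_pow, mul_comm]
      congr 1
      have h1 : (1 - X ^ d : ℤ[X]) = -(X ^ d - C 1) := by
        rw [C_1]; ring
      rw [h1, natDegree_neg, natDegree_X_pow_sub_C]
    · simp [hd.ne']

theorem exists_exponents (T : Multiset ℕ) (c : ℕ) (hT : ∀ n ∈ T, 0 < n) (hb : ∀ n ∈ T, n < c)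
    (K : ℤ[X]) (hK : K = (T.map fun n => cyclotomic n ℤ).prod ∨
      K = -(T.map fun n => cyclotomic n ℤ).prod) (h0 : K.coeff 0 = 1) :
    ∃ e : ℕ → ℤ, e 0 = 0 ∧ (∀ d, c ≤ d → e d = 0) ∧
      (∀ n, 0 < n → (T.count n : ℤ) = ∑ k ∈ Icc 1 c, e (k * n)) ∧
      (∑ d ∈ range c, (d : ℤ) * e d = K.natDegree) ∧
      -- the product formula, denominators cleared
      K * ∏ d ∈ range c, (1 - X ^ d) ^ (-e d).toNat = ∏ d ∈ range c, (1 - X ^ d) ^ (e d).toNat := by
  have hz := eT_at_zero T hT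
  obtain ⟨ε, hε, h⟩ : ∃ ε : ℤ, (ε = 1 ∨ ε = -1) ∧
      algebraMap ℤ[X] (RatFunc ℤ) K = (ε : RatFunc ℤ) * ∏ d ∈ range c, aa d ^ eT T d := by
    obtain ⟨ε, hε, h⟩ := prod_aa T c hT hb
    rcases hK with rfl | rfl
    · exact ⟨ε, hε, h⟩
    · refine ⟨-ε, ?_, ?_⟩
      · rcases hε with rfl | rfl
        · right; rfl
        · left; rfl
      · rw [map_neg, h]
        push_cast
        ring
  have hprod : K * ∏ d ∈ range c, (1 - X ^ d) ^ (-eT T d).toNat =
      (ε : ℤ[X]) * ∏ d ∈ range c, (1 - X ^ d) ^ (eT T d).toNat := by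
    apply RatFunc.algebraMap_injective ℤ
    rw [map_mul, map_mul, h, map_intCast, map_prod, map_prod, mul_assoc, ← Finset.prod_mul_distrib]
    congr 1
    refine Finset.prod_congr rfl fun d _ => ?_
    rw [map_pow, map_pow]
    change aa d ^ eT T d * aa d ^ (-eT T d).toNat = aa d ^ (eT T d).toNat
    rcases Nat.eq_zero_or_pos d with rfl | hd
    · rw [hz]
      simp
    · rw [← zpow_natCast, ← zpow_natCast, ← zpow_add₀ (aa_ne hd)]
      congr 1
      omega
  have hA : ∀ e' : ℕ → ℕ, (e' 0 = 0) → (∏ d ∈ range c, (1 - X ^ d : ℤ[X]) ^ e' d) ≠ 0 ∧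
      (∏ d ∈ range c, (1 - X ^ d : ℤ[X]) ^ e' d).natDegree = ∑ d ∈ range c, d * e' d ∧
      (∏ d ∈ range c, (1 - X ^ d : ℤ[X]) ^ e' d).eval 0 = 1 := by
    intro e' he'
    have hf : ∀ d, d = 0 → e' d = 0 := by rintro d rfl; exact he'
    refine ⟨Finset.prod_ne_zero_iff.2 fun d _ => (pow_facts (hf d)).1, ?_, ?_⟩
    · rw [natDegree_prod _ _ fun d _ => (pow_facts (hf d)).1]
      exact Finset.sum_congr rfl fun d _ => (pow_facts (hf d)).2.1
    · rw [eval_prod]
      exact Finset.prod_eq_one fun d _ => (pow_facts (hf d)).2.2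
  obtain ⟨hP0, hP1, hP2⟩ := hA (fun d => (-eT T d).toNat) (by simp [hz])
  obtain ⟨hQ0, hQ1, hQ2⟩ := hA (fun d => (eT T d).toNat) (by simp [hz])
  have hε1 : ε = 1 := by
    have h1 := congrArg (Polynomial.eval 0) hprod
    rw [eval_mul, eval_mul, hP2, hQ2, mul_one, mul_one, eval_intCast, ← coeff_zero_eq_eval_zero,
      h0] at h1
    exact_mod_cast h1.symm
  rw [hε1, Int.cast_one, one_mul] at hprod
  refine ⟨eT T, hz, eT_large T c hT hb, eT_count T c hT hb, ?_, hprod⟩
  have hK0 : K ≠ 0 := by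
    rintro rfl
    simp at h0
  have h1 := congrArg natDegree hprod
  rw [natDegree_mul hK0 hP0, hP1, hQ1] at h1
  have h2 : (K.natDegree : ℤ) + ∑ d ∈ range c, (d : ℤ) * ((-eT T d).toNat : ℤ) =
      ∑ d ∈ range c, (d : ℤ) * ((eT T d).toNat : ℤ) := by exact_mod_cast h1
  have h3 : ∑ d ∈ range c, (d : ℤ) * eT T d = ∑ d ∈ range c, (d : ℤ) * ((eT T d).toNat : ℤ) -
      ∑ d ∈ range c, (d : ℤ) * ((-eT T d).toNat : ℤ) := by
    rw [← Finset.sum_sub_distrib]
    refine Finset.sum_congr rfl fun d _ => ?_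
    rw [← mul_sub]
    congr 1
    omega
  rw [h3, ← h2]
  ring

end Pool.Agent.W2helper2.CY
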